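import Pool.Agent.H.MP_532027_co.Cat

set_option autoImplicit false

namespace Pool.Agent.Results.MP_532027_co.NotSeventyFive

open Polynomial Finset

/-- the q-integer -/
noncomputable def qInt (m : ℕ) : ℚ[X] := ∑ i ∈ range m, X ^ i

/-- the q-factorial -/
noncomputable def qFac (m : ℕ) : ℚ[X] := ∏ i ∈ range m, qInt (i + 1)

/-- the q-Catalan polynomial -/
noncomputable def qCat (n : ℕ) : ℚ[X] := qFac (2 * n) / (qInt (n + 1) * qFac n * qFac n)

/-- log-concavity of the coefficients with indices from `t` to `n(n-1)-t`, for all large `n` -/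
def Works (t : ℕ) : Prop :=
  ∃ N : ℕ, ∀ n ≥ N, ∀ k : ℕ, t ≤ k → k + 2 + t + n ≤ n * n →
    (qCat n).coeff k * (qCat n).coeff (k + 2) ≤ (qCat n).coeff (k + 1) ^ 2

theorem result :
    (∀ n, qInt (n + 1) * qFac n * qFac n * qCat n = qFac (2 * n)) ∧
    (∀ t ≤ 70, ¬ Works t) ∧ (Works 75 → Works 71) ∧ ¬ IsLeast {t | Works t} 75 := by
  have h0 : ∀ n, qInt (n + 1) * qFac n * qFac n * qCat n = qFac (2 * n) := by
    intro n
    obtain ⟨C, hC⟩ := Pool.Agent.H.MP_532027_co.exists_cat n
    refine EuclideanDomain.mul_div_cancel' ?_ ⟨C, hC.symm⟩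
    exact (((Pool.Agent.H.MP_532027_co.qi_monic n).mul (Pool.Agent.H.MP_532027_co.qf_monic n)).mul
      (Pool.Agent.H.MP_532027_co.qf_monic n)).ne_zero
  have hc : ∀ n, 76 ≤ n → ∀ k < 77, (qCat n).coeff k =
      ((Pool.Agent.H.MP_532027_co.al.getD k 0 : ℤ) : ℚ) :=
    fun n hn => Pool.Agent.H.MP_532027_co.cat_coeff n hn _ (h0 n)
  have hs : ∀ n j k, j + k + n = n * n → (qCat n).coeff j = (qCat n).coeff k :=
    fun n => Pool.Agent.H.MP_532027_co.cat_symm n _ (h0 n)
  have h2 : Works 75 → Works 71 := by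
    rintro ⟨N, hN⟩
    refine ⟨N + 76, fun n hn k h1 h2 => ?_⟩
    have low : ∀ j, 71 ≤ j → j < 75 →
        (qCat n).coeff j * (qCat n).coeff (j + 2) ≤ (qCat n).coeff (j + 1) ^ 2 := by
      intro j a b
      rw [hc n (by omega) j (by omega), hc n (by omega) (j + 2) (by omega),
        hc n (by omega) (j + 1) (by omega)]
      interval_cases j <;> norm_num [Pool.Agent.H.MP_532027_co.al]
    by_cases a : k < 75
    · exact low k h1 a
    by_cases b : k + 2 + 75 + n ≤ n * n
    · exact hN n (by omega) k (by omega) b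
    obtain ⟨j, hj⟩ : ∃ j, j + k + 2 + n = n * n := ⟨n * n - (k + 2 + n), by omega⟩
    rw [hs n k (j + 2) (by omega), hs n (k + 2) j (by omega), hs n (k + 1) (j + 1) (by omega),
      mul_comm]
    exact low j (by omega) (by omega)
  refine ⟨h0, ?_, h2, fun h => ?_⟩
  · rintro t ht ⟨N, hN⟩
    have a : 76 * (N + 76) ≤ (N + 76) * (N + 76) := Nat.mul_le_mul_right _ (by omega)
    have := hN (N + 76) (by omega) 70 ht (by omega)
    rw [hc _ (by omega) 70 (by omega), hc _ (by omega) (70 + 2) (by omega),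
      hc _ (by omega) (70 + 1) (by omega)] at this
    norm_num [Pool.Agent.H.MP_532027_co.al] at this
  · have := h.2 (h2 h.1)
    omega

end Pool.Agent.Results.MP_532027_co.NotSeventyFive
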